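import Pool.Agent.W_MP_de1370_an.Defs
import Pool.Agent.W_MP_de1370_an.Proof

/-!
# Property (SC) fails for `cwk(X)`: a negative answer to a question of Fremlin

For Lebesgue measure on `[0,1]` there is a (non-separable) Hilbert space `X`, real or complex,
such that the family `cwk(X)` of non-empty convex weakly compact subsets of `X` does not have
property (SC).  The space is `X = ℓ²(ι)` with `ι` of cardinality at least `𝔠⁺⁺`.
-/

open MeasureTheory Set Cardinal Pool.Agent.W_MP_de1370_an

namespace Pool.Agent.Results.MP_de1370_an.HilbertFailsSC

/-- **Negative answer to Fremlin's question.**  Let `Ω = [0,1]` with the Lebesgue measurable sets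
and Lebesgue measure (a complete probability space).  Over `𝕜 = ℝ` and over `𝕜 = ℂ` there is a
Hilbert space `X` such that `cwk(X)` does not have property (SC). -/
theorem result :
    IsProbabilityMeasure (volume : Measure unitInterval).completion ∧
    (volume : Measure unitInterval).completion.IsComplete ∧
    ∀ (𝕜 : Type) [RCLike 𝕜],
      ∃ (X : Type) (_ : NormedAddCommGroup X) (_ : InnerProductSpace 𝕜 X), CompleteSpace X ∧
        ¬ HasPropertySC 𝕜 (NullMeasurableSpace unitInterval (volume : Measure unitInterval))
          (cwk 𝕜 X) := by
  refine ⟨⟨?_⟩, inferInstance, ?_⟩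
  · exact (congrFun (Measure.coe_completion (volume : Measure unitInterval)) Set.univ).trans
      measure_univ
  · intro 𝕜 _
    let ι : Type := (Order.succ (Order.succ 𝔠)).out
    have hι : Order.succ (Order.succ 𝔠) ≤ #ι := (mk_out _).ge
    exact ⟨lp (fun _ : ι => 𝕜) 2, inferInstance, inferInstance, inferInstance,
      main_lebesgue 𝕜 ι hι⟩

end Pool.Agent.Results.MP_de1370_an.HilbertFailsSC
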